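import Pool.Agent.Q234.KT.Defs
import Pool.Agent.Y665.PE.C3
import Pool.Agent.Y738.PE.Glob3

/-!
# Project KT, third part: local convergence at a polynomial rate, and conversions of formats

The libraries `H4R2`, `Y665.PE` (regions `R ⊂ ℤ²`, `redState`, `ham R k L`), `TH235.PP` (box operators) and
`Y738.PE` (`expec`, `Close`) are used. All statements are about qubits (`d = 2`).
-/

set_option autoImplicit false

open scoped BigOperators ComplexConjugate
open Finset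

namespace Pool.Agent.Q234.KT

open Pool.Agent.H4R2 in
/-- RateS. Uniform stability of the gap implies that the reduced states converge at a polynomial rate. PROOF:
the proofs of the library `Pool.Agent.Y665.PE` with explicit sizes. (1) `entry_approx` (A2.lean): its proof gives
`L₀ = (M + 2) * (M + 2) + (M + 3) * R.card + 1`, `M = side 2 R ε ≤ C₁ / ε`, so `L₀ ≤ C₂ / ε^2` for `0 < ε ≤ 1`; repeat
the proof with the conclusion `∃ C₂, ∀ ε, 0 < ε → ε ≤ 1 → ∀ L, C₂ / ε^2 ≤ L → ..`, and then `transfer` and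
`energy_close` (A2.lean) in the same form. (2) `conv_of_stable` (B3.lean; it uses `one_size`, B3.lean, which has
explicit constants): with `D = 1`, `δ = s`, the entries of `O` bounded by `2`: `T = c η`, the energies are needed up to
`c' η^2` (`η ≤ 1`), so `L ≥ C₃ / η^4` is enough for `|(pair O (redState R (ψ L))).re - (..).re| ≤ η`. Here `size k`
is a constant and `size O ≤ 2 * (number of entries)`. (3) the entries: as in `cauch_of_pair` (C1.lean), with
`O = single a b 1 + single b a 1` and `single a b I + single b a (-I)`, whose entries are at most `2`. -/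
def RateS : Prop := ∀ (R : Finset (ℤ × ℤ)) (k : Matrix (R → Fin 2) (R → Fin 2) ℂ) (s : ℝ) (L₁ : ℕ)
  (ψ : ∀ (L : ℕ) [NeZero L], (Site L → Fin 2) → ℂ), k.IsHermitian → 0 < s →
  (∀ (L : ℕ) [NeZero L], L₁ ≤ L → normSq (ψ L) = 1 ∧ IsGappedGround (ham R k L) 1 (ψ L)) →
  (∀ (L : ℕ) [NeZero L], L₁ ≤ L → ∀ O : Matrix (R → Fin 2) (R → Fin 2) ℂ, O.IsHermitian →
    (∀ a b, ‖O a b‖ ≤ 2) → ∀ t : ℝ, 0 < t → t ≤ s → ∃ φ : (Site L → Fin 2) → ℂ, normSq φ = 1 ∧
      IsGappedGround (ham R k L + (t : ℂ) • ham R O L) 1 φ) →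
  ∃ C : ℝ, 0 < C ∧ ∀ ε : ℝ, 0 < ε → ε ≤ 1 → ∀ (L L' : ℕ) [NeZero L] [NeZero L'],
    C / ε ^ 4 ≤ L → C / ε ^ 4 ≤ L' →
    ∀ a b, ‖redState R (ψ L) a b - redState R (ψ L') a b‖ ≤ ε

/-- the box `[0,N)²` -/
def bR (N : ℕ) : Finset (ℤ × ℤ) :=
  (Finset.range N ×ˢ Finset.range N).image fun p => ((p.1 : ℤ), (p.2 : ℤ))

/-- the point `x` of `Fin N × Fin N` as a point of `bR N` -/
def pt (N : ℕ) (x : Fin N × Fin N) : bR N :=
  ⟨(((x.1 : ℕ) : ℤ), ((x.2 : ℕ) : ℤ)), Finset.mem_image.2 ⟨((x.1 : ℕ), (x.2 : ℕ)),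
    Finset.mem_product.2 ⟨Finset.mem_range.2 x.1.2, Finset.mem_range.2 x.2.2⟩, rfl⟩⟩

/-- a box operator as an operator on the region `bR N` -/
def toR {N : ℕ} (h : Pool.Agent.TH235.PP.BoxOp 2 N) : Matrix (bR N → Fin 2) (bR N → Fin 2) ℂ :=
  fun a b => h (fun x => a (pt N x)) (fun x => b (pt N x))

/-- BoxS. PROOF. `pt N` is a bijection from `Fin N × Fin N` to `bR N`, and
`toTorus L (pt N x) + u = sh u x` (up to the order of the sums), so the two `term`s agree. The second part: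
`O' p q = O (fun y => p (inv y)) (fun y => q (inv y))` with the inverse of `pt N`. -/
def BoxS : Prop :=
  (∀ (N : ℕ) (h : Pool.Agent.TH235.PP.BoxOp 2 N) (L : ℕ) [NeZero L],
    Pool.Agent.TH235.PP.ham h L = Pool.Agent.H4R2.ham (bR N) (toR h) L) ∧
  (∀ (N : ℕ) (O : Matrix (bR N → Fin 2) (bR N → Fin 2) ℂ), ∃ O' : Pool.Agent.TH235.PP.BoxOp 2 N,
    toR O' = O ∧ (O.IsHermitian → O'.IsHermitian) ∧ ∀ p q, ∃ a b, O' p q = O a b) ∧
  ∀ (N : ℕ) (h : Pool.Agent.TH235.PP.BoxOp 2 N), h.IsHermitian → (toR h).IsHermitian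

/-- RedS. Expectations on `r × r` boxes in terms of the reduced states. PROOF. Translation invariant vectors
(up to phases: `Pool.Agent.Y665.PE.TransInv`) have translation invariant expectations, so `u = 0`, `v = 0` (see
`transInv_expec` in Y738/PE/Final.lean, and `TransInv` there). `expec Ψ 0 B = ∑_(σ,τ) B σ τ * (rdm at the box) τ σ`
(unfold `expec`, `box`, `put`, `rdm`, `Ker`; `r ≤ L` makes the positions of the box distinct), where the entries of the
reduced state on `bR r` are `redState (bR r) Ψ a b` with `a = σ`, `b = τ` transported by the bijection `pt r`; the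
entries of a contraction are at most `1`; so `C = (number of entries) = (2^(r^2))^2`. -/
def RedS : Prop := ∀ r : ℕ, 0 < r → ∃ C : ℝ, 0 < C ∧ ∀ (L L' : ℕ) [NeZero L] [NeZero L'], r ≤ L →
  r ≤ L' → ∀ (Ψ : Pool.Agent.Y738.PE.Conf 2 L → ℂ) (Ψ' : Pool.Agent.Y738.PE.Conf 2 L' → ℂ) (η : ℝ),
    Pool.Agent.H4R2.normSq Ψ = 1 → Pool.Agent.H4R2.normSq Ψ' = 1 →
    Pool.Agent.Y665.PE.TransInv Ψ → Pool.Agent.Y665.PE.TransInv Ψ' →
    (∀ a b, ‖Pool.Agent.H4R2.redState (bR r) Ψ a b - Pool.Agent.H4R2.redState (bR r) Ψ' a b‖ ≤ η) →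
    ∀ (u : Pool.Agent.Y738.PE.Site L) (v : Pool.Agent.Y738.PE.Site L')
      (B : Pool.Agent.Y738.PE.BConf 2 r → Pool.Agent.Y738.PE.BConf 2 r → ℂ),
      Pool.Agent.Y738.PE.Contr B →
      ‖Pool.Agent.Y738.PE.expec Ψ u B - Pool.Agent.Y738.PE.expec Ψ' v B‖ ≤ C * η

open Pool.Agent.Y738.PE in
/-- NearS. Vectors which are close in norm have close reduced states. PROOF. By `Pool.Agent.Y70.PE.region` (see
StmRegion) `expecR R Φ v B = expec Φ (v + a) B'` for `r₀ = r ≤ L`, with a contraction `B'`, and by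
`Pool.Agent.Y65.PE.bound` (StmBound) `‖expec Φ w B'‖ ≤ nrm Φ` for all `Φ`. `Ψ` is translation invariant up to phases,
so all positions may be taken equal for `Ψ`. With `χ = φ - Ψ`, `nrm χ ≤ (ε/8)²`: `expec φ - expec Ψ - expec χ = S`,
the cross terms, and `expec (Ψ + λ χ) - expec (Ψ - λ χ) = 2 λ S`, so `‖S‖ ≤ (1 + λ² nrm χ)/λ = ε/4` for
`λ = 8/ε`. `|nrm φ - 1|` is bounded in the same way (Cauchy-Schwarz): `|nrm φ - 1| ≤ 2 (ε/8) + (ε/8)²`. Together
`‖expec φ / nrm φ - expec Ψ‖ ≤ ‖expec φ - expec Ψ‖ + |nrm φ - 1| ≤ ε` since `‖expec φ‖ ≤ nrm φ`. -/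
def NearS : Prop := ∀ R : Finset (ℤ × ℤ), ∃ r₀ : ℕ, ∀ (L : ℕ) [NeZero L], r₀ ≤ L →
  ∀ (Ψ φ : Conf 2 L → ℂ) (ε : ℝ), 0 < ε → ε ≤ 1 → nrm Ψ = 1 → Pool.Agent.Y665.PE.TransInv Ψ →
    nrm (fun s => φ s - Ψ s) ≤ (ε / 8) ^ 2 → nrm φ ≠ 0 ∧ Close R Ψ φ ε

/-- TrS. From `Close` to the trace norm of the difference of the reduced states. PROOF. Take `u = v = 0` and the
matrix units `B = E_ab` (contractions) in `Close`: `expecR R Ψ 0 E_ab / nrm Ψ` is an entry of `redState R Ψ`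
(unfold `expecR`, `res`, `rdm`, `Ker`; `nrm` and `normSq` are the same), so all entries of the difference are at
most `ε`, and `Pool.Agent.H4R2.traceNorm_le` (Ham.lean). -/
def TrS : Prop := ∀ R : Finset (ℤ × ℤ), ∀ (L : ℕ) [NeZero L]
  (Ψ Ψ' : Pool.Agent.Y738.PE.Conf 2 L → ℂ) (ε : ℝ), Pool.Agent.Y738.PE.Close R Ψ Ψ' ε →
    Pool.Agent.H4R2.traceNorm (Pool.Agent.H4R2.redState R Ψ - Pool.Agent.H4R2.redState R Ψ') ≤
      ((2 : ℝ) ^ R.card) ^ 2 * ε

end Pool.Agent.Q234.KT
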