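import Pool.Agent.Q234.KT.Stm

/-!
# Project KT, second part: perturbations of two different ranges

For the local theorem the gap of `h + t O` is needed, where `h` is close to `- X_(0,0)` (how close may
depend on the range of `h` only) and `O` has an arbitrary range and `t` is as small as we like, depending
on the range of `O`. So there are two families of perturbation terms. The statements below are those of
the first part without smallness conditions which depend on the range.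
-/

set_option autoImplicit false

open scoped BigOperators
open Finset Pool.Agent.TH235.PP

namespace Pool.Agent.Q234.KT

/-- ExpG. As ExpS, for every `M`. PROOF (from AlgS). The proof of ExpS: with `D_k = F^k - F'^k`,
`nm D_k ≤ k M^(k-1) nm (F - F')` and `nx D_k ≤ k M^(k-1) nx (F - F') + k (k-1) M^(k-2) nm (F - F') (nx F + nx F')`,
`∑_(k≥1) k M^(k-1)/k! = exp M`, `∑_(k≥2) k (k-1) M^(k-2)/k! = exp M`. (`M ≥ 0` as `nm ≥ 0`.) -/
def ExpG : Prop := ∀ (V : Type) [Fintype V] [DecidableEq V] (t : Finset V → ℕ) (r : ℝ) (S : Finset V),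
  IsSize t → 1 ≤ r → S.Nonempty → ∀ (F F' : (V → Fin 2) → ℂ) (M : ℝ), nm r t S F ≤ M →
    nm r t S F' ≤ M →
    nm r t S (fun σ => Complex.exp (F σ) - Complex.exp (F' σ)) ≤
      Real.exp M * nm r t S (fun σ => F σ - F' σ) ∧
    ∀ x, nx r t S x (fun σ => Complex.exp (F σ) - Complex.exp (F' σ)) ≤
        Real.exp M * nx r t S x (fun σ => F σ - F' σ) +
          Real.exp M * nm r t S (fun σ => F σ - F' σ) * (nx r t S x F + nx r t S x F')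

/-- JPartG. As JPart, with the condition `δ ≤ 1` only. PROOF (from WalshS (2), AlgS, ExpG). The proof of JPart
with `M = 2 r^b b δ ≤ 2 r^b b =: M₀` and `exp M₀` in place of `4`: with `W = 2^b ω r^b` the first sum is at most
`m W exp M₀ (2 r^b b η) + W exp M₀ (2 r^b m η) + W exp M₀ (2 r^b b η) (4 r^b m δ) ≤ K ω η` since `δ ≤ 1`. Second:
`w_j exp F = w_j + w_j (exp F - exp 0)`, ExpG with `F' = 0`: at most `m W + (..) ≤ K ω`. (`η ≥ 0` and `δ ≥ 0` as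
`nb ≥ 0`, there is a site `x`.) -/
def JPartG : Prop := ∀ (b m : ℕ) (r : ℝ), 1 ≤ r → ∃ K : ℝ, 0 < K ∧
  ∀ (V : Type) [Fintype V] [DecidableEq V] (J : Type) [Fintype J] (t : Finset V → ℕ)
    (A B : J → Finset V) (w : J → (V → Fin 2) → ℂ) (ω δ η : ℝ), IsSize t → 0 ≤ ω →
    IsPert b m t A B w ω → δ ≤ 1 → ∀ g g' : Finset V → ℂ, (∀ x, nb r t x g ≤ δ) →
    (∀ x, nb r t x g' ≤ δ) → (∀ x, nb r t x (fun X => g X - g' X) ≤ η) → ∀ x,
      ∑ j, nx r t (B j) x (fun σ => w j σ * (Complex.exp (-2 * Gp g (A j) σ) -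
        Complex.exp (-2 * Gp g' (A j) σ))) ≤ K * ω * η ∧
      ∑ j, nx r t (B j) x (fun σ => w j σ * Complex.exp (-2 * Gp g (A j) σ)) ≤ K * ω

/-- the bound of the perturbation terms which is used -/
def JB {V : Type} [Fintype V] [DecidableEq V] {J : Type} [Fintype J] (r δ κ : ℝ) (t : Finset V → ℕ)
    (A B : J → Finset V) (w : J → (V → Fin 2) → ℂ) : Prop :=
  ∀ (g g' : Finset V → ℂ) (η : ℝ), (∀ x, nb r t x g ≤ δ) → (∀ x, nb r t x g' ≤ δ) →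
    (∀ x, nb r t x (fun X => g X - g' X) ≤ η) → ∀ x,
      ∑ j, nx r t (B j) x (fun σ => w j σ * (Complex.exp (-2 * Gp g (A j) σ) -
        Complex.exp (-2 * Gp g' (A j) σ))) ≤ κ * η ∧
      ∑ j, nx r t (B j) x (fun σ => w j σ * Complex.exp (-2 * Gp g (A j) σ)) ≤ κ

/-- ContrG. PROOF (from UPart). As ContrS: `nb r t x (Tm g) ≤ (1/2) (48 δ δ + κ) ≤ (1/2) (δ/2 + δ) ≤ δ` and
`nb r t x (Tm g - Tm g') ≤ (1/2) (48 δ η + κ η) ≤ (1/2) (η/2 + η/96) ≤ η/2`. (`η ≥ 0` as `nb ≥ 0`.) -/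
def ContrG : Prop := ∀ (V : Type) [Fintype V] [DecidableEq V] (J : Type) [Fintype J]
    (t : Finset V → ℕ) (A B : J → Finset V) (w : J → (V → Fin 2) → ℂ) (r δ κ : ℝ), IsSize t →
    1 ≤ r → 0 < δ → δ ≤ 1 / 96 → κ ≤ δ → JB r δ κ t A B w →
    (∀ g : Finset V → ℂ, (∀ x, nb r t x g ≤ δ) → ∀ x, nb r t x (Tm A w g) ≤ δ) ∧
    ∀ (g g' : Finset V → ℂ) (η : ℝ), (∀ x, nb r t x g ≤ δ) → (∀ x, nb r t x g' ≤ δ) →
      (∀ x, nb r t x (fun X => g X - g' X) ≤ η) →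
      ∀ x, nb r t x (fun X => Tm A w g X - Tm A w g' X) ≤ η / 2

/-- GapG. PROOF (from WalshS, AlgS, as GapS). `|F| = ∑_X ‖co F X‖` is submultiplicative (AlgS with `r = 1`; or
directly from WalshS (3)), `|exp F - 1| ≤ exp |F| - 1`. With `f = F / Psi g = ∑_X a_X ch X` as in the proof of
GapS: `(2 |X| - μ) a_X = - co K X`, `K = 2 ∑_u (exp (-2 G_u) - 1) ∑_(X ∋ u) a_X ch X - 2 ∑_j w_j exp (-2 G_j)
∑_(|X ∩ A_j| odd) a_X ch X`. `|exp (-2 G_u) - 1| ≤ exp (1/16) - 1 ≤ 1/12`; with `W_j = |w_j exp (-2 G_j)|` (the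
inner sum of the third hypothesis): `|K| ≤ 2 (1/12) ∑_X |X| ‖a_X‖ + 2 ∑_X ‖a_X‖ ∑_(j : A_j ∩ X ≠ ∅) W_j` and
`∑_(j : A_j ∩ X ≠ ∅) W_j ≤ ∑_(v ∈ X) ∑_(j : v ∈ B_j) W_j ≤ |X| / 8`. So `|K| ≤ (1/6 + 1/4) ∑_X |X| ‖a_X‖`. As
`‖2 |X| - μ‖ ≥ 2 |X| - Re μ ≥ |X|` for `X ≠ ∅`: `∑_X |X| ‖a_X‖ ≤ |K| ≤ (5/12) ∑_X |X| ‖a_X‖`, so `a_X = 0` for
`X ≠ ∅` and `f` is constant. -/
def GapG : Prop := ∀ (V : Type) [Fintype V] [DecidableEq V] (J : Type) [Fintype J]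
  (A B : J → Finset V) (w : J → (V → Fin 2) → ℂ) (g : Finset V → ℂ) (E μ : ℂ)
  (F : (V → Fin 2) → ℂ), (∀ j, A j ⊆ B j) →
  (∀ x, ∑ X ∈ univ.filter (fun X : Finset V => x ∈ X), ‖g X‖ ≤ 1 / 32) →
  (∀ x, ∑ j ∈ univ.filter (fun j => x ∈ B j), ∑ Y : Finset V,
    ‖co (fun σ => w j σ * Complex.exp (-2 * Gp g (A j) σ)) Y‖ ≤ 1 / 8) →
  (∀ σ, Hf A w (Psi g) σ = E * Psi g σ) → μ.re < 1 → (∀ σ, Hf A w F σ = (E + μ) * F σ) →
  ∃ c : ℂ, ∀ σ, F σ = c * Psi g σ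

/-- L1S. PROOF (from WalshS, AlgS with `r = 1`). `|F| = ∑_Y ‖co F Y‖` is submultiplicative and
`|exp F| ≤ exp |F|`. `|w_j| ≤ 2^b ω` (at most `2^b` subsets of `B_j`, `|B_j| ≤ t B_j ≤ b`), `|G_j| ≤
∑_(X meets A_j) ‖g X‖ ≤ b / 32`, so `|w_j exp (-2 G_j)| ≤ 2^b ω exp (b/16)`, and at most `m` indices `j` with
`x ∈ B_j`: `K = m 2^b exp (b/16) + 1`. -/
def L1S : Prop := ∀ b m : ℕ, ∃ K : ℝ, 0 < K ∧ ∀ (V : Type) [Fintype V] [DecidableEq V] (J : Type)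
  [Fintype J] (t : Finset V → ℕ) (A B : J → Finset V) (w : J → (V → Fin 2) → ℂ) (ω : ℝ)
  (g : Finset V → ℂ), IsSize t → 0 ≤ ω → IsPert b m t A B w ω →
  (∀ x, ∑ X ∈ univ.filter (fun X : Finset V => x ∈ X), ‖g X‖ ≤ 1 / 32) →
  ∀ x, ∑ j ∈ univ.filter (fun j => x ∈ B j), ∑ Y : Finset V,
    ‖co (fun σ => w j σ * Complex.exp (-2 * Gp g (A j) σ)) Y‖ ≤ K * ω

end Pool.Agent.Q234.KT
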