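import Pool.Agent.Q234.KT.Stm

/-!
# Project KT: the assembly
-/

set_option autoImplicit false

open scoped BigOperators Matrix
open Finset Pool.Agent.TH235.PP

namespace Pool.Agent.Q234.KT

/-- FinalS. The main theorem. -/
def FinalS : Prop := ∀ (n : ℕ) (κ : ℝ), 1 ≤ n → 0 < κ → ∃ δ C : ℝ, 0 < δ ∧ 0 < C ∧
  ∀ h : BoxOp 2 n, h.IsHermitian → (∀ p q, ‖h p q - field n p q‖ ≤ δ) →
    ∀ (L : ℕ) [NeZero L], n ≤ L → ∃ Ψ : (Site L → Fin 2) → ℂ, normSq Ψ = 1 ∧
      IsGappedGround (ham h L) 1 Ψ ∧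
      ∀ ε : ℝ, 0 < ε → ε ≤ 1 → ∃ (D : ℕ) (φ : (Site L → Fin 2) → ℂ),
        (D : ℝ) ≤ C * ((L : ℝ) / ε) ^ κ ∧ IsPEPS D φ ∧ normSq (φ - Ψ) ≤ ε ^ 2

namespace Fin

section aux

variable {V : Type} [Fintype V] [DecidableEq V] {J : Type} [Fintype J]

set_option linter.unusedSectionVars false

lemma pert_mono {b m : ℕ} {t : Finset V → ℕ} {A B : J → Finset V} {w : J → (V → Fin 2) → ℂ}
    {ω ω' : ℝ} (h : IsPert b m t A B w ω) (hω : ω ≤ ω') : IsPert b m t A B w ω' :=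
  ⟨h.sub, h.ne, h.size, h.mult, fun j Y => (h.bd j Y).trans hω, h.supp⟩

lemma ch_sq (X : Finset V) (σ : V → Fin 2) : ch X σ = 1 ∨ ch X σ = -1 := by
  unfold ch
  induction X using Finset.induction_on with
  | empty => left; simp
  | insert a s ha ih =>
    rw [Finset.prod_insert ha]
    have h1 : sg (σ a) = 1 ∨ sg (σ a) = -1 := by
      unfold sg
      split_ifs <;> simp
    rcases h1 with h | h <;> rcases ih with h' | h' <;> rw [h, h'] <;> simp

lemma exp_ch (z : ℂ) (X : Finset V) (σ : V → Fin 2) :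
    Complex.exp (z * ch X σ) - 1 = (Complex.cosh z - 1) + Complex.sinh z * ch X σ := by
  rcases ch_sq X σ with h | h
  · rw [h, mul_one, mul_one, ← Complex.cosh_add_sinh]; ring
  · rw [h, mul_neg_one, mul_neg_one, ← Complex.cosh_sub_sinh]; ring

lemma Psi_ne (g : Finset V → ℂ) (σ : V → Fin 2) : Psi g σ ≠ 0 := Complex.exp_ne_zero _

lemma Psi_prod (g : Finset V → ℂ) (hg : g ∅ = 0) (σ : V → Fin 2) :
    Psi g σ = ∏ X : {X : Finset V // X.Nonempty}, (1 + (Complex.exp (g X.1 * ch X.1 σ) - 1)) := by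
  classical
  unfold Psi
  rw [Complex.exp_sum]
  have h1 : ∀ X : {X : Finset V // X.Nonempty},
      1 + (Complex.exp (g X.1 * ch X.1 σ) - 1) = Complex.exp (g X.1 * ch X.1 σ) := fun X => by ring
  rw [Finset.prod_congr rfl fun X _ => h1 X]
  rw [← Finset.prod_subtype (univ.filter fun X : Finset V => X.Nonempty)
    (p := fun X : Finset V => X.Nonempty) (fun X => by simp)
    (fun X => Complex.exp (g X * ch X σ))]
  rw [Finset.prod_filter]
  refine Finset.prod_congr rfl fun X _ => ?_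
  by_cases hX : X.Nonempty
  · rw [if_pos hX]
  · rw [if_neg hX, Finset.not_nonempty_iff_eq_empty.1 hX, hg, zero_mul, Complex.exp_zero]

end aux

section vec

variable {S : Type} [Fintype S]

lemma normSq_smul (c : ℂ) (φ : S → ℂ) : normSq (c • φ) = ‖c‖ ^ 2 * normSq φ := by
  unfold normSq
  rw [Finset.mul_sum]
  refine Finset.sum_congr rfl fun s _ => ?_
  rw [Pi.smul_apply, smul_eq_mul, norm_mul, mul_pow]

lemma normSq_pos {φ : S → ℂ} (s : S) (hs : φ s ≠ 0) : 0 < normSq φ := by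
  unfold normSq
  exact Finset.sum_pos' (fun _ _ => by positivity) ⟨s, Finset.mem_univ _, by positivity⟩

lemma eig_real [DecidableEq S] {H : Matrix S S ℂ} (hH : H.IsHermitian) {φ : S → ℂ} {E : ℂ}
    (h0 : 0 < normSq φ) (h : H *ᵥ φ = E • φ) : E = (E.re : ℂ) := by
  have h1 : star φ ⬝ᵥ (H *ᵥ φ) = E * (normSq φ : ℂ) := by
    rw [h]
    unfold dotProduct normSq
    push_cast
    rw [Finset.mul_sum]
    refine Finset.sum_congr rfl fun s _ => ?_
    rw [Pi.star_apply, Pi.smul_apply, smul_eq_mul]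
    have : star (φ s) * φ s = ((‖φ s‖ : ℝ) : ℂ) ^ 2 := by
      rw [← Complex.conj_mul']; rfl
    calc star (φ s) * (E * φ s) = E * (star (φ s) * φ s) := by ring
      _ = _ := by rw [this]
  have h2 : star (star φ ⬝ᵥ (H *ᵥ φ)) = star φ ⬝ᵥ (H *ᵥ φ) := by
    rw [← Matrix.star_dotProduct, Matrix.star_mulVec, hH.eq, ← Matrix.dotProduct_mulVec]
  rw [h1] at h2
  have h3 : (normSq φ : ℂ) ≠ 0 := by exact_mod_cast h0.ne'
  have h4 : star E * (normSq φ : ℂ) = E * (normSq φ : ℂ) := by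
    rw [star_mul'] at h2
    have h5 : star (normSq φ : ℂ) = (normSq φ : ℂ) := Complex.conj_ofReal _
    rw [h5] at h2
    exact h2
  have h6 : star E = E := mul_right_cancel₀ h3 h4
  exact (Complex.conj_eq_iff_re.1 h6).symm

end vec

lemma peps_smul {L : ℕ} [NeZero L] {D : ℕ} {ψ : (Site L → Fin 2) → ℂ} (h : IsPEPS D ψ) (c : ℂ) :
    IsPEPS D (c • ψ) := by
  classical
  obtain ⟨A, rfl⟩ := h
  refine ⟨fun x a l r dn up => (if x = 0 then c else 1) * A x a l r dn up, ?_⟩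
  funext s
  unfold contract
  simp only [Pi.smul_apply, smul_eq_mul, Finset.mul_sum]
  refine Finset.sum_congr rfl fun h _ => Finset.sum_congr rfl fun v _ => ?_
  rw [Finset.prod_mul_distrib]
  congr 1
  rw [Finset.prod_ite_eq']
  simp

/-- the solution for one interaction and one torus -/
lemma solve (hC : ContrS) (hF : FixS) (hE : EigS) (hG : GapS) (hH : HullS) (hM : MatS) (n : ℕ)
    (r : ℝ) (hn : 1 ≤ n) (hr : 1 ≤ r) : ∃ δ : ℝ, 0 < δ ∧
    ∀ h : BoxOp 2 n, h.IsHermitian → (∀ p q, ‖h p q - field n p q‖ ≤ δ) →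
    ∀ (L : ℕ) [NeZero L], n ≤ L → ∃ (hh : Finset (Site L) → Finset (Site L)) (g : Finset (Site L) → ℂ),
      (∀ X, X ⊆ hh X) ∧ (∀ X, Conn (hh X)) ∧
      (∀ (v : Site L) (k : ℕ), ((univ.image hh).filter fun S => v ∈ S ∧ S.card = k).card ≤ 16 ^ k) ∧
      g ∅ = 0 ∧ (∀ x, nb r (fun X => (hh X).card) x g ≤ 1 / 4) ∧
      IsGappedGround (ham h L) 1 (Psi g) := by
  classical
  obtain ⟨δ₀, hδ₀, hC1⟩ := hC (n ^ 2) (n ^ 2 * 2 ^ n ^ 2) r hr
  obtain ⟨ω₂, hω₂, hG1⟩ := hG (n ^ 2) (n ^ 2 * 2 ^ n ^ 2)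
  set δg : ℝ := min δ₀ (min (1 / 4) (1 / (16 * (((n ^ 2 : ℕ) : ℝ) + 1)))) with hδg
  have hδg0 : 0 < δg := by
    refine lt_min hδ₀ (lt_min (by norm_num) (by positivity))
  have hδg1 : δg ≤ δ₀ := min_le_left _ _
  have hδg2 : δg ≤ 1 / 4 := (min_le_right _ _).trans (min_le_left _ _)
  have hδg3 : δg ≤ 1 / (16 * (((n ^ 2 : ℕ) : ℝ) + 1)) := (min_le_right _ _).trans (min_le_right _ _)
  obtain ⟨ω₁, hω₁, hC2⟩ := hC1 δg hδg0 hδg1
  refine ⟨min ω₁ ω₂, lt_min hω₁ hω₂, ?_⟩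
  intro h hher hclose L _ hL
  obtain ⟨hh, hh0, hh1, hh2, hh3, hh4, hh5⟩ := hH L
  obtain ⟨hM1, hM2⟩ := hM n L h (min ω₁ ω₂) hn hL hclose
  have hP := hM2 (fun X => (hh X).card) (fun u => hh5 n u)
  have hP1 := pert_mono hP (min_le_left ω₁ ω₂)
  have hP2 := pert_mono hP (min_le_right ω₁ ω₂)
  obtain ⟨hC3, hC4⟩ := hC2 (Site L) (Site L × Finset (Fin n × Fin n)) (fun X => (hh X).card) (Aj n)
    (fun j => bx n j.1) (wj h) hh3 hP1
  obtain ⟨g, hg0, hg1, hg2, -, -⟩ := hF (Site L) (fun X => (hh X).card) r δg (Tm (Aj n) (wj h)) hr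
    hδg0.le (fun g => by unfold Tm; rw [if_pos rfl]) hC3 hC4
  refine ⟨hh, g, hh1, hh2, hh4, hg0, fun x => (hg1 x).trans hδg2, ?_⟩
  have hE1 := hE (Site L) (Site L × Finset (Fin n × Fin n)) (Aj n) (wj h) g hg2
  have hg3 : ∀ x : Site L, ∑ X ∈ univ.filter (fun X : Finset (Site L) => x ∈ X), ‖g X‖ ≤
      1 / (16 * (((n ^ 2 : ℕ) : ℝ) + 1)) := by
    intro x
    refine le_trans ?_ ((hg1 x).trans hδg3)
    unfold nb
    refine Finset.sum_le_sum fun X hX => ?_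
    have h1 : (1 : ℝ) ≤ X.card := by
      exact_mod_cast Finset.card_pos.2 ⟨x, (Finset.mem_filter.1 hX).2⟩
    have h2 : (1 : ℝ) ≤ r ^ (hh X).card := one_le_pow₀ hr
    have h3 : 0 ≤ ‖g X‖ := norm_nonneg _
    calc ‖g X‖ = 1 * ‖g X‖ * 1 := by ring
      _ ≤ (X.card : ℝ) * ‖g X‖ * r ^ (hh X).card := by
        apply mul_le_mul (mul_le_mul_of_nonneg_right h1 h3) h2 zero_le_one
        positivity
  set E := En (Aj n) (wj h) g with hEdef
  have hH1 : (ham h L).mulVec (Psi g) = E • Psi g := by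
    funext σ
    rw [hM1, hE1, Pi.smul_apply, smul_eq_mul]
  have hpos : 0 < normSq (Psi g) := normSq_pos (fun _ => 0) (Psi_ne g _)
  have hreal := eig_real (ham_herm h hher) hpos hH1
  have key : ∀ (E' : ℝ) (φ : (Site L → Fin 2) → ℂ), (ham h L).mulVec φ = (E' : ℂ) • φ →
      E' < E.re + 1 → ∃ c : ℂ, φ = c • Psi g := by
    intro E' φ h1 h2
    obtain ⟨c, hc⟩ := hG1 (Site L) (Site L × Finset (Fin n × Fin n)) (fun X => (hh X).card) (Aj n)
      (fun j => bx n j.1) (wj h) g E ((E' : ℂ) - E) φ hh3 hP2 hg3 hE1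
      (by rw [Complex.sub_re, Complex.ofReal_re]; linarith) (fun σ => by
        rw [← hM1, h1, Pi.smul_apply, smul_eq_mul]; ring)
    exact ⟨c, funext hc⟩
  refine ⟨E.re, by rw [hH1, ← hreal], ?_, ?_⟩
  · intro φ h1
    exact key E.re φ h1 (by linarith)
  · intro E' φ h0 h1
    by_cases h2 : E.re + 1 ≤ E'
    · exact Or.inr h2
    · left
      push Not at h2
      obtain ⟨c, hc⟩ := key E' φ h1 h2
      have h3 : (E' : ℂ) • φ = E • φ := by
        rw [← h1, hc, Matrix.mulVec_smul, hH1, smul_comm]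
      have h4 : ∃ σ, φ σ ≠ 0 := by
        by_contra hcon
        push Not at hcon
        exact h0 (funext hcon)
      obtain ⟨σ, hσ⟩ := h4
      have h5 := congrFun h3 σ
      rw [Pi.smul_apply, Pi.smul_apply, smul_eq_mul, smul_eq_mul] at h5
      have h6 := mul_right_cancel₀ hσ h5
      rw [← h6, Complex.ofReal_re]

lemma gapped_smul {S : Type} [Fintype S] {H : Matrix S S ℂ} {Δ : ℝ} {φ : S → ℂ}
    (h : IsGappedGround H Δ φ) {c : ℂ} (hc : c ≠ 0) : IsGappedGround H Δ (c • φ) := by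
  obtain ⟨E, h1, h2, h3⟩ := h
  refine ⟨E, by rw [Matrix.mulVec_smul, h1, smul_comm], fun ψ hψ => ?_, h3⟩
  obtain ⟨d, hd⟩ := h2 ψ hψ
  exact ⟨d * c⁻¹, by rw [hd, smul_smul, mul_assoc, inv_mul_cancel₀ hc, mul_one]⟩

/-- the truncated sum -/
noncomputable def trunc {L : ℕ} [NeZero L] (hh : Finset (Site L) → Finset (Site L))
    (g : Finset (Site L) → ℂ) (s : ℕ) (σ : Site L → Fin 2) : ℂ :=
  Zc (fun X : {X : Finset (Site L) // X.Nonempty} => hh X.1)
    (fun X => Complex.exp (g X.1 * ch X.1 σ) - 1) (fun _ => s)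

/-- the PEPS for one torus -/
lemma approx (hCa : CapS) (hR : RepS) (hCn : CntS) (hW : WtS) {L : ℕ} [NeZero L]
    {hh : Finset (Site L) → Finset (Site L)} {g : Finset (Site L) → ℂ} {q : ℝ} (hq : 1 ≤ q)
    (h1 : ∀ X, X ⊆ hh X) (h2 : ∀ X, Conn (hh X))
    (h3 : ∀ (v : Site L) (k : ℕ), ((univ.image hh).filter fun S => v ∈ S ∧ S.card = k).card ≤ 16 ^ k)
    (h4 : g ∅ = 0) (h5 : ∀ x, nb (128 * q) (fun X => (hh X).card) x g ≤ 1 / 4) {ε : ℝ} (hε : 0 < ε)
    (hε1 : ε ≤ 1) {s : ℕ} (hs : (1 + 2 / q ^ s) ^ (L ^ 2) - 1 ≤ ε / 4) :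
    IsPEPS (2 * 128 ^ s) (trunc hh g s) ∧
      normSq (trunc hh g s - Psi g) ≤ ε ^ 2 * normSq (Psi g) := by
  classical
  have himg : ∀ (v : Site L) (k : ℕ), ((univ.image
      (fun X : {X : Finset (Site L) // X.Nonempty} => hh X.1)).filter
        fun S => v ∈ S ∧ S.card = k).card ≤ 16 ^ k := by
    intro v k
    refine le_trans (Finset.card_le_card ?_) (h3 v k)
    intro S hS
    rw [Finset.mem_filter, Finset.mem_image] at hS ⊢
    obtain ⟨⟨X, -, rfl⟩, h⟩ := hS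
    exact ⟨⟨X.1, Finset.mem_univ _, rfl⟩, h⟩
  constructor
  · have hcard : ∀ v, (typ (fun X : {X : Finset (Site L) // X.Nonempty} => hh X.1) s v).card ≤
        2 * 128 ^ s := by
      intro v
      have h6 := hCn (Site L) (fun X : {X : Finset (Site L) // X.Nonempty} => hh X.1) 16 s v
        (by norm_num) (fun X => h1 X.1) himg
      have h7 : (2 * (8 * ((16 : ℕ) : ℝ)) ^ s) = ((2 * 128 ^ s : ℕ) : ℝ) := by push_cast; norm_num
      rw [h7] at h6
      exact_mod_cast h6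
    have h8 := hR L (fun X : {X : Finset (Site L) // X.Nonempty} => hh X.1)
      (fun X => Complex.cosh (g X.1) - 1) (fun X => Complex.sinh (g X.1)) s (2 * 128 ^ s)
      (fun X => h1 X.1) (fun X => h2 X.1) hcard
    have h9 : trunc hh g s = fun σ => Zc (fun X : {X : Finset (Site L) // X.Nonempty} => hh X.1)
        (fun X => (Complex.cosh (g X.1) - 1) + Complex.sinh (g X.1) * ch X.1 σ) (fun _ => s) := by
      funext σ
      unfold trunc
      congr 1
      funext X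
      exact exp_ch _ _ _
    rw [h9]
    exact h8
  · have hb : ∀ σ, ‖Psi g σ - trunc hh g s σ‖ ≤ ε / 4 * ‖trunc hh g s σ‖ := by
      intro σ
      have h6 := hW (Site L) hh 16 (128 * q) q g (by norm_num) hq (by push_cast; linarith) h1 h3 h5 σ
      have h7 := hCa (Site L) {X : Finset (Site L) // X.Nonempty}
        (fun X => hh X.1) (fun X => Complex.exp (g X.1 * ch X.1 σ) - 1) q s
        (fun X => X.2.mono (h1 X.1)) hq h6
      rw [← Psi_prod g h4 σ] at h7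
      have h8 : Fintype.card (Site L) = L ^ 2 := by
        rw [Fintype.card_prod, ZMod.card, sq]
      rw [h8] at h7
      exact h7.trans (mul_le_mul_of_nonneg_right hs (norm_nonneg _))
    have hb2 : ∀ σ, ‖(trunc hh g s - Psi g) σ‖ ≤ ε * ‖Psi g σ‖ := by
      intro σ
      have h6 := hb σ
      have h7 : ‖trunc hh g s σ‖ ≤ ‖Psi g σ‖ + ‖Psi g σ - trunc hh g s σ‖ := by
        have := norm_sub_le (Psi g σ) (Psi g σ - trunc hh g s σ)
        rwa [sub_sub_cancel] at this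
      have h8 : ‖(trunc hh g s - Psi g) σ‖ = ‖Psi g σ - trunc hh g s σ‖ := by
        rw [Pi.sub_apply, norm_sub_rev]
      rw [h8]
      have h9 := norm_nonneg (Psi g σ - trunc hh g s σ)
      have h10 := norm_nonneg (Psi g σ)
      nlinarith
    unfold normSq
    rw [Finset.mul_sum]
    refine Finset.sum_le_sum fun σ _ => ?_
    have := hb2 σ
    calc ‖(trunc hh g s - Psi g) σ‖ ^ 2 ≤ (ε * ‖Psi g σ‖) ^ 2 :=
          pow_le_pow_left₀ (norm_nonneg _) this 2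
      _ = ε ^ 2 * ‖Psi g σ‖ ^ 2 := by ring

theorem main (hC : ContrS) (hF : FixS) (hE : EigS) (hG : GapS) (hH : HullS) (hM : MatS)
    (hCa : CapS) (hR : RepS) (hCn : CntS) (hW : WtS) (hA : ArithS) : FinalS := by
  classical
  intro n κ hn hκ
  obtain ⟨q, C, hq, hC0, hA1⟩ := hA κ hκ
  obtain ⟨δ, hδ, hS⟩ := solve hC hF hE hG hH hM n (128 * q) hn (by linarith)
  refine ⟨δ, C, hδ, hC0, ?_⟩
  intro h hher hclose L _ hL
  obtain ⟨hh, g, h1, h2, h3, h4, h5, h6⟩ := hS h hher hclose L hL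
  have hpos : 0 < normSq (Psi g) := normSq_pos (fun _ => 0) (Psi_ne g _)
  set c : ℂ := (((Real.sqrt (normSq (Psi g)))⁻¹ : ℝ) : ℂ) with hc
  have hsq : 0 < Real.sqrt (normSq (Psi g)) := Real.sqrt_pos.2 hpos
  have hcn : ‖c‖ ^ 2 = (normSq (Psi g))⁻¹ := by
    rw [hc, Complex.norm_real, Real.norm_eq_abs, abs_of_pos (by positivity), inv_pow,
      Real.sq_sqrt hpos.le]
  have hc0 : c ≠ 0 := by
    rw [hc]
    exact_mod_cast (inv_pos.2 hsq).ne'
  refine ⟨c • Psi g, ?_, gapped_smul h6 hc0, ?_⟩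
  · rw [normSq_smul, hcn, inv_mul_cancel₀ hpos.ne']
  · intro ε hε hε1
    obtain ⟨s, hs1, hs2⟩ := hA1 L ε (Nat.one_le_iff_ne_zero.2 (NeZero.ne L)) hε hε1
    obtain ⟨h7, h8⟩ := approx hCa hR hCn hW hq h1 h2 h3 h4 h5 hε hε1 hs1
    refine ⟨2 * 128 ^ s, c • trunc hh g s, ?_, peps_smul h7 c, ?_⟩
    · push_cast
      linarith
    · rw [← smul_sub, normSq_smul, hcn]
      calc (normSq (Psi g))⁻¹ * normSq (trunc hh g s - Psi g)
          ≤ (normSq (Psi g))⁻¹ * (ε ^ 2 * normSq (Psi g)) :=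
            mul_le_mul_of_nonneg_left h8 (by positivity)
        _ = ε ^ 2 := by field_simp

end Fin

end Pool.Agent.Q234.KT
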