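import Pool.Agent.Q234.KT.Defs

/-!
# Project KT: statements of the jobs, with complete proofs in the docstrings

Theorem of the project: every finite range Hermitian interaction on the torus whose entries are close to
those of `- X_(0,0)` has, for all `L ≥ n`, a unique ground state `exp (∑_X g_X ch X)` with a gap of at
least `1`, and PEPS of bond dimension `C (L/ε)^κ`, with `κ` as small as we like, approximate it within `ε`.
-/

set_option autoImplicit false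

open scoped BigOperators
open Finset Pool.Agent.TH235.PP

namespace Pool.Agent.Q234.KT

/-- WalshS. Characters of `(Fin 2)^V`. PROOF. `sg a * sg a = 1`, `sg (a + 1) = - sg a`. (5): split the
product over `X ∪ Y`; the factors at `X ∩ Y` are `1`. (4): the factors at `X ∩ A` change the sign.
Orthogonality: `∑_σ ch X σ = 0` for `X ≠ ∅` (flip one spin of `X`: the sum is its own negative, or
`Finset.prod_univ_sum` / `Fintype.piFinset`), `= 2^|V|` for `X = ∅`. (2) from (5) and orthogonality. (1): count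
dimensions, or directly `∑_X ch X σ ch X τ = ∏_v (1 + sg (σ v) sg (τ v)) = 2^|V|` if `σ = τ` and `0` otherwise
(`Finset.prod_add` or `Finset.prod_one_add`). (3): insert (1) for `G` or for both and use (5); `X ↦ symmDiff X Z`
is an involution. (6): `‖ch X σ‖ = 1` and there are `2^|V|` configurations. (7): choose `v ∈ X`, `v ∉ B`; the
flip of `v` changes the sign of `ch X` and not `F`. -/
def WalshS : Prop := ∀ (V : Type) [Fintype V] [DecidableEq V],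
  (∀ (F : (V → Fin 2) → ℂ) (σ : V → Fin 2), F σ = ∑ X : Finset V, co F X * ch X σ) ∧
  (∀ (c : Finset V → ℂ) (Z : Finset V), co (fun σ => ∑ X : Finset V, c X * ch X σ) Z = c Z) ∧
  (∀ (F G : (V → Fin 2) → ℂ) (Z : Finset V),
    co (fun σ => F σ * G σ) Z = ∑ X : Finset V, co F X * co G (symmDiff X Z)) ∧
  (∀ (A X : Finset V) (σ : V → Fin 2), ch X (fl A σ) = (-1) ^ (X ∩ A).card * ch X σ) ∧
  (∀ (X Y : Finset V) (σ : V → Fin 2), ch X σ * ch Y σ = ch (symmDiff X Y) σ) ∧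
  (∀ (F : (V → Fin 2) → ℂ) (ω : ℝ), (∀ σ, ‖F σ‖ ≤ ω) → ∀ X, ‖co F X‖ ≤ ω) ∧
  ∀ (F : (V → Fin 2) → ℂ) (B : Finset V), (∀ σ τ : V → Fin 2, (∀ v ∈ B, σ v = τ v) → F σ = F τ) →
    ∀ X, ¬ X ⊆ B → co F X = 0

/-- AlgS. The rooted norm is submultiplicative. PROOF. By WalshS (3), with `Y = symmDiff X Z`:
`‖co (F G) Z‖ ≤ ∑_X ‖co F X‖ ‖co G (symmDiff X Z)‖`; `Z = symmDiff X Y ⊆ X ∪ Y`, so `S ∪ Z ⊆ (S ∪ X) ∪ (S ∪ Y)`
and, as `S` is not empty, `t (S ∪ Z) ≤ t (S ∪ X) + t (S ∪ Y)` and `r ^ t (S ∪ Z) ≤ r ^ t (S ∪ X) r ^ t (S ∪ Y)`.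
Sum over `Z`; for fixed `X` the map `Z ↦ symmDiff X Z` is a bijection. For `nx`: `x ∈ Z` implies `x ∈ X` or
`x ∈ Y`. -/
def AlgS : Prop := ∀ (V : Type) [Fintype V] [DecidableEq V] (t : Finset V → ℕ) (r : ℝ) (S : Finset V),
  IsSize t → 1 ≤ r → S.Nonempty → ∀ F G : (V → Fin 2) → ℂ,
    nm r t S (fun σ => F σ * G σ) ≤ nm r t S F * nm r t S G ∧
    ∀ x, nx r t S x (fun σ => F σ * G σ) ≤ nx r t S x F * nm r t S G + nm r t S F * nx r t S x G

/-- ExpS. PROOF (from AlgS). `M ≥ 0`. `exp F - exp F' = ∑_(k ≥ 1) (F^k - F'^k) / k!` and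
`F^k - F'^k = (F - F') ∑_(i+j=k-1) F^i F'^j`. By AlgS for `k ≥ 1`: `nm (F^k) ≤ (nm F)^k`,
`nx (F^k) ≤ k M^(k-1) nx F`. Show by induction on `k ≥ 1`, with `D_k = F^k - F'^k = F^(k-1) (F - F') +
D_(k-1) F'`: `nm D_k ≤ k M^(k-1) nm (F - F')` and `nx D_k ≤ k M^(k-1) nx (F - F') +
k (k-1) M^(k-2) nm (F - F') (nx F + nx F')` (for `k = 1` the second term is absent; for the step use
`nx (F^(k-1) (F-F')) ≤ (k-1) M^(k-2) nx F nm (F-F') + M^(k-1) nx (F-F')`). `co` is linear and continuous, so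
the coefficients of `exp F - exp F'` are the sums of the series and `nm`, `nx` are countably subadditive
(finite sums over `X`; `Complex.exp_eq_tsum`/`NormedSpace.exp_eq_tsum`, `Complex.hasSum_exp` or similar; or
pass to the limit with the partial sums, which are polynomials, by continuity of `nm` and `nx` on the finite
dimensional space of functions). `∑_(k≥1) k M^(k-1)/k! = exp M ≤ 4`, `∑_(k≥2) k M^(k-1)/k! = exp M - 1 ≤ 4 M`,
`∑_(k≥2) k(k-1) M^(k-2)/k! = exp M ≤ 4` for `0 ≤ M ≤ 1`. -/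
def ExpS : Prop := ∀ (V : Type) [Fintype V] [DecidableEq V] (t : Finset V → ℕ) (r : ℝ) (S : Finset V),
  IsSize t → 1 ≤ r → S.Nonempty → ∀ (F F' : (V → Fin 2) → ℂ) (M : ℝ), nm r t S F ≤ M →
    nm r t S F' ≤ M → M ≤ 1 →
    nm r t S (fun σ => Complex.exp (F σ) - Complex.exp (F' σ)) ≤
      4 * nm r t S (fun σ => F σ - F' σ) ∧
    ∀ x, nx r t S x (fun σ => Complex.exp (F σ) - Complex.exp (F' σ)) ≤
        4 * nx r t S x (fun σ => F σ - F' σ) +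
          4 * nm r t S (fun σ => F σ - F' σ) * (nx r t S x F + nx r t S x F') ∧
      nx r t S x (fun σ => Complex.exp (F σ) - Complex.exp (F' σ) - (F σ - F' σ)) ≤
        4 * M * nx r t S x (fun σ => F σ - F' σ) +
          4 * nm r t S (fun σ => F σ - F' σ) * (nx r t S x F + nx r t S x F')

/-- UPart. The one site terms. PROOF (from WalshS (2), ExpS). `Gp g {u}` has the coefficients `g X` at the sets
`X` which contain `u` (`Odd (X ∩ {u}).card ↔ u ∈ X`) and `0` otherwise. So `nm r t {u} (Gp g {u}) =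
∑_(X ∋ u) ‖g X‖ r^(t X) ≤ nb r t u g ≤ δ` (`{u} ∪ X = X`, `|X| ≥ 1`), the same for `g'`, and
`nm r t {u} (Gp g {u} - Gp g' {u}) ≤ η`. `∑_u nx r t {u} x (Gp g {u}) = ∑_u ∑_(X ∋ u, x) ‖g X‖ r^(t X) =
∑_(X ∋ x) |X| ‖g X‖ r^(t X) = nb r t x g ≤ δ`, the same for `g'` and for `g - g'` with `η`. With `F = -2 Gp g {u}`,
`F' = -2 Gp g' {u}`, `M = 2 δ ≤ 1`, the function is `exp F - exp F' - (F - F')`; by ExpS the sum over `u` is at most
`4 (2 δ) (2 η) + 4 (2 η) (2 δ + 2 δ) = 48 δ η`. -/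
def UPart : Prop := ∀ (V : Type) [Fintype V] [DecidableEq V] (t : Finset V → ℕ) (r δ η : ℝ),
  IsSize t → 1 ≤ r → 2 * δ ≤ 1 → ∀ g g' : Finset V → ℂ, (∀ x, nb r t x g ≤ δ) →
    (∀ x, nb r t x g' ≤ δ) → (∀ x, nb r t x (fun X => g X - g' X) ≤ η) →
    ∀ x, ∑ u, nx r t {u} x (fun σ => (Complex.exp (-2 * Gp g {u} σ) - 1 + 2 * Gp g {u} σ) -
      (Complex.exp (-2 * Gp g' {u} σ) - 1 + 2 * Gp g' {u} σ)) ≤ 48 * δ * η

/-- JPart. The perturbation terms. PROOF (from WalshS (2), AlgS, ExpS). Let `G_j = Gp g (A j)`, with the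
coefficients `g X` at the `X` with `|X ∩ A_j|` odd (so `X` meets `A_j ⊆ B_j`). `t (B_j ∪ X) ≤ b + t X` for such `X`.
`nm r t B_j G_j ≤ r^b ∑_(v ∈ B_j) ∑_(X ∋ v) ‖g X‖ r^(t X) ≤ r^b b δ` (`|B_j| ≤ t B_j ≤ b`), the same for `g'`; for
`g - g'` with `η`. `∑_j nx r t B_j x G_j ≤ r^b ∑_(X ∋ x) ‖g X‖ r^(t X) #{j : B_j ∩ X ≠ ∅} ≤ r^b m δ`, since
`#{j : B_j ∩ X ≠ ∅} ≤ m |X|`; for `g - g'` with `η`. `nm r t B_j w_j ≤ 2^b ω r^b =: W` (support in the subsets of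
`B_j`), `nx r t B_j x w_j ≤ W` and `= 0` if `x ∉ B_j` (at most `m` indices `j` with `x ∈ B_j`). Choose `δ₀` with
`2 r^b b δ₀ ≤ 1`, use ExpS with `F = -2 G_j`, `F' = -2 G'_j`, `M = 2 r^b b δ ≤ 1`, and AlgS: the first sum is at
most `m W (8 r^b b η) + W (8 r^b m η) + W (16 r^b b η) (2 r^b m δ) ≤ K ω η`. Second: `w_j exp F = w_j +
w_j (exp F - exp 0)`, ExpS with `F' = 0`: the sum is at most `m W + ... ≤ K ω`. -/
def JPart : Prop := ∀ (b m : ℕ) (r : ℝ), 1 ≤ r → ∃ δ₀ K : ℝ, 0 < δ₀ ∧ 0 < K ∧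
  ∀ (V : Type) [Fintype V] [DecidableEq V] (J : Type) [Fintype J] (t : Finset V → ℕ)
    (A B : J → Finset V) (w : J → (V → Fin 2) → ℂ) (ω δ η : ℝ), IsSize t → 0 ≤ ω →
    IsPert b m t A B w ω → δ ≤ δ₀ → ∀ g g' : Finset V → ℂ, (∀ x, nb r t x g ≤ δ) →
    (∀ x, nb r t x g' ≤ δ) → (∀ x, nb r t x (fun X => g X - g' X) ≤ η) → ∀ x,
      ∑ j, nx r t (B j) x (fun σ => w j σ * (Complex.exp (-2 * Gp g (A j) σ) -
        Complex.exp (-2 * Gp g' (A j) σ))) ≤ K * ω * η ∧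
      ∑ j, nx r t (B j) x (fun σ => w j σ * Complex.exp (-2 * Gp g (A j) σ)) ≤ K * ω

/-- ContrS. PROOF (from UPart, JPart). `co` is linear. For `X ∋ x`: `|X| ‖Tm g X‖ r^(t X) ≤ (1/2)
‖co (Ph g) X‖ r^(t X)`, and `t X ≤ t ({u} ∪ X)`, `t X ≤ t (B_j ∪ X)`, so `nb r t x (Tm g) ≤ (1/2) (∑_u nx {u} x (..)
+ ∑_j nx (B j) x (..)) ≤ (1/2) (48 δ δ + K ω)` (UPart with `g' = 0`, `η = δ`; `Gp 0 A = 0`) and
`nb r t x (Tm g - Tm g') ≤ (1/2) (48 δ η + K ω η)`. Take `δ₀ ≤ 1/96` and at most the one of JPart and `1/2`, and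
`ω₀ = min (δ/(2K)) (1/(4K))` or so. Note `nb ≥ 0`, so `η ≥ 0` if `V` is not empty; nothing to show otherwise. -/
def ContrS : Prop := ∀ (b m : ℕ) (r : ℝ), 1 ≤ r → ∃ δ₀ : ℝ, 0 < δ₀ ∧ ∀ δ : ℝ, 0 < δ → δ ≤ δ₀ →
  ∃ ω₀ : ℝ, 0 < ω₀ ∧ ∀ (V : Type) [Fintype V] [DecidableEq V] (J : Type) [Fintype J]
    (t : Finset V → ℕ) (A B : J → Finset V) (w : J → (V → Fin 2) → ℂ), IsSize t →
    IsPert b m t A B w ω₀ →
    (∀ g : Finset V → ℂ, (∀ x, nb r t x g ≤ δ) → ∀ x, nb r t x (Tm A w g) ≤ δ) ∧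
    ∀ (g g' : Finset V → ℂ) (η : ℝ), (∀ x, nb r t x g ≤ δ) → (∀ x, nb r t x g' ≤ δ) →
      (∀ x, nb r t x (fun X => g X - g' X) ≤ η) →
      ∀ x, nb r t x (fun X => Tm A w g X - Tm A w g' X) ≤ η / 2

/-- FixS. The fixed point, with the iterates of `0`. PROOF. `g_k = T^[k] 0`. `nb (g_(k+1) - g_k) ≤ δ / 2^k` by
induction (`nb (T 0) ≤ δ` by the first hypothesis; `nb 0 = 0`). For `X ≠ ∅`, `x ∈ X`: `‖c X‖ ≤ nb r t x c`
(`|X| ≥ 1`, `r^(t X) ≥ 1`), so `‖g_(k+1) X - g_k X‖ ≤ δ / 2^k` for all `X` (both are `0` for `X = ∅`), the sequence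
converges, `‖g_k X - g X‖ ≤ 2 δ / 2^k`; `nb g ≤ δ` by continuity (finite sums). `nb (g_k - g) ≤ η_k → 0`, so
`nb (T g_k - T g) ≤ η_k / 2 → 0` and `T g = g`. Uniqueness: if `g'` is another one and `η` is the maximum of
`nb r t x (g - g')` over `x` (`V` finite; if `V` is empty the only set is `∅`) then `η ≤ η / 2`. -/
def FixS : Prop := ∀ (V : Type) [Fintype V] [DecidableEq V] (t : Finset V → ℕ) (r δ : ℝ)
  (T : (Finset V → ℂ) → Finset V → ℂ), 1 ≤ r → 0 ≤ δ → (∀ g, T g ∅ = 0) →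
  (∀ g : Finset V → ℂ, (∀ x, nb r t x g ≤ δ) → ∀ x, nb r t x (T g) ≤ δ) →
  (∀ (g g' : Finset V → ℂ) (η : ℝ), (∀ x, nb r t x g ≤ δ) → (∀ x, nb r t x g' ≤ δ) →
    (∀ x, nb r t x (fun X => g X - g' X) ≤ η) →
    ∀ x, nb r t x (fun X => T g X - T g' X) ≤ η / 2) →
  ∃ g : Finset V → ℂ, g ∅ = 0 ∧ (∀ x, nb r t x g ≤ δ) ∧ T g = g ∧
    (∀ (k : ℕ) (X : Finset V), ‖(T^[k] 0) X - g X‖ ≤ 2 * δ / 2 ^ k) ∧
    ∀ g' : Finset V → ℂ, g' ∅ = 0 → (∀ x, nb r t x g' ≤ δ) → T g' = g' → g' = g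

/-- EigS. PROOF (from WalshS). `Psi g (fl A σ) = Psi g σ exp (-2 Gp g A σ)` by WalshS (4). So
`Hf Psi / Psi = - ∑_u exp (-2 G_u) + ∑_j w_j exp (-2 G_j) = - |V| + 2 ∑_u G_u - Ph`, `G_u = Gp g {u}`. Its
coefficient at `X ≠ ∅` is `2 |X| g X - co Ph X = 0` by the fixed point equation (`co (G_u) X = g X` if `u ∈ X`
and `0` otherwise), at `∅` it is `En`. A function with these coefficients is constant (WalshS (1)). -/
def EigS : Prop := ∀ (V : Type) [Fintype V] [DecidableEq V] (J : Type) [Fintype J]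
  (A : J → Finset V) (w : J → (V → Fin 2) → ℂ) (g : Finset V → ℂ), Tm A w g = g →
  ∀ σ, Hf A w (Psi g) σ = En A w g * Psi g σ

/-- GapS. No other eigenvalue with real part below `Re E + 1`. PROOF (from WalshS, AlgS with `r = 1`; then
`nm 1 t S F = ∑_X ‖co F X‖ =: |F|` does not depend on `S`; if `V` is empty everything is trivial). Put
`f = F / Psi g`. Subtracting `E` the equation becomes
`- ∑_u exp (-2 G_u(σ)) (f (fl u σ) - f σ) + ∑_j w_j(σ) exp (-2 G_j(σ)) (f (fl A_j σ) - f σ) = μ f σ`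
(`Psi g (fl A σ) = Psi g σ exp (-2 Gp g A σ)`, and the equation for `Psi g` itself). Let `f = ∑_X a_X ch X`. Then
`f (fl A σ) - f σ = -2 ∑_(|X ∩ A| odd) a_X ch X σ`. Hence for every `X ≠ ∅` (even for all `X`):
`(2 |X| - μ) a_X = - co (K) X`, `K = 2 ∑_u (exp (-2 G_u) - 1) ∑_(X ∋ u) a_X ch X - 2 ∑_j w_j exp (-2 G_j)
∑_(|X ∩ A_j| odd) a_X ch X`. With `δ = 1/(16(b+1))`: `|G_u| ≤ δ`, `|G_j| ≤ b δ`,
`|exp (-2 G_u) - 1| ≤ exp (2 δ) - 1 ≤ 1/6`, `|w_j exp (-2 G_j)| ≤ 2^b ω₀ exp (2 b δ) ≤ 2^(b+1) ω₀`, and the number of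
`j` with `B_j ∩ X ≠ ∅` is at most `m |X|`: `|K| ≤ 2 (1/6 + 2^(b+1) ω₀ m) ∑_X |X| ‖a_X‖ ≤ (1/2) ∑_X |X| ‖a_X‖` for
small `ω₀`. As `‖2 |X| - μ‖ ≥ 2 |X| - Re μ ≥ |X|` for `X ≠ ∅`: `∑_X |X| ‖a_X‖ ≤ |K| ≤ (1/2) ∑_X |X| ‖a_X‖`, so
`a_X = 0` for `X ≠ ∅` and `f` is constant. -/
def GapS : Prop := ∀ b m : ℕ, ∃ ω₀ : ℝ, 0 < ω₀ ∧ ∀ (V : Type) [Fintype V] [DecidableEq V] (J : Type)
  [Fintype J] (t : Finset V → ℕ) (A B : J → Finset V) (w : J → (V → Fin 2) → ℂ)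
  (g : Finset V → ℂ) (E μ : ℂ) (F : (V → Fin 2) → ℂ), IsSize t → IsPert b m t A B w ω₀ →
  (∀ x, ∑ X ∈ univ.filter (fun X : Finset V => x ∈ X), ‖g X‖ ≤ 1 / (16 * (b + 1))) →
  (∀ σ, Hf A w (Psi g) σ = E * Psi g σ) → μ.re < 1 → (∀ σ, Hf A w F σ = (E + μ) * F σ) →
  ∃ c : ℂ, ∀ σ, F σ = c * Psi g σ

/-- CapS. Truncation of the loads, for complex weights. PROOF. `Z c = Zc h b c`; `Z 0 = 1` (hulls are not empty).
LOCAL IDENTITY: let `c' = update c v k`, `k < c v`. Then `Z c - Z c' = ∑_P' ∏_(i ∈ P') b_i *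
Z (update (c - load P') v 0)`, the sum over the sets `P'` of polymers through `v` (`v ∈ h i` for all `i ∈ P'`) with
`k < load_v P'` and `load P' ≤ c`: split `P = P' ∪ P''` into the polymers through `v` and the others; the others
are the sets `P''` with `load P'' ≤ c - load P'` and no polymer through `v`, and this means
`load P'' ≤ update (c - load P') v 0` (a polymer through `v` has load at least `1` at `v`). Note
`load_v P' = ∑_(i ∈ P') |h i| =: |P'|` and `P' ≠ ∅`. CLAIM: for all `c`, `v`, `k < c v`: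
`‖Z c'‖ ≤ 2 ‖Z c‖` and `Z c ≠ 0`, by strong induction on `∑_v c v`. The function `update (c - load P') v 0` is
`≤ c'` and differs from `c'` only at sites of `⋃_(i ∈ P') h i`, at most `|P'|` sites; lowering one site after the
other (all functions `≤ c'`, of smaller sum than `c`) gives `‖Z (update ..)‖ ≤ 2^|P'| ‖Z c'‖`. So
`‖Z c - Z c'‖ ≤ ‖Z c'‖ ∑_(P' ≠ ∅) ∏ ‖b_i‖ 2^|h i| ≤ ‖Z c'‖ (∏_(i : v ∈ h i) (1 + ‖b_i‖ 2^|h i|) - 1) ≤
‖Z c'‖ (exp (1/4) - 1) ≤ ‖Z c'‖ / 2`. This proves the claim. Moreover for `k = s`: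
`‖Z c - Z c'‖ ≤ ‖Z c'‖ ∑_(|P'| > s) ∏ ‖b_i‖ 2^|h i| ≤ ‖Z c'‖ q^(-s) ∏ (1 + ‖b_i‖ (2q)^|h i|) ≤ (2/q^s) ‖Z c'‖`.
Raise the capacities of the sites one by one from `s` to `N ≥ s` with `N ≥ ∑_i |h i|` (then there is no
condition and `Z = ∏ (1 + b_i)`): `‖Z N - Z s‖ ≤ ((1 + 2/q^s)^|V| - 1) ‖Z s‖` by induction on the number of
raised sites. -/
def CapS : Prop := ∀ (V : Type) [Fintype V] [DecidableEq V] (ι : Type) [Fintype ι] [DecidableEq ι]
  (h : ι → Finset V) (b : ι → ℂ) (q : ℝ) (s : ℕ), (∀ i, (h i).Nonempty) → 1 ≤ q →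
  (∀ v, ∑ i ∈ univ.filter (fun i => v ∈ h i), ‖b i‖ * (2 * q) ^ (h i).card ≤ 1 / 4) →
  ‖∏ i, (1 + b i) - Zc h b (fun _ => s)‖ ≤
    ((1 + 2 / q ^ s) ^ Fintype.card V - 1) * ‖Zc h b (fun _ => s)‖

/-- the sets of typed polymers through `v` of total size at most `s` -/
def typ {V : Type} [Fintype V] [DecidableEq V] (h : {X : Finset V // X.Nonempty} → Finset V) (s : ℕ)
    (v : V) : Finset (Finset ({X : Finset V // X.Nonempty} × Bool)) :=
  univ.filter fun Q => (∀ p ∈ Q, v ∈ h p.1) ∧ ∑ p ∈ Q, (h p.1).card ≤ s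

/-- LocS. A PEPS from a model with local states. PROOF. Choose injections `c_x : Sh x → Fin D`,
`c'_x : Sv x → Fin D`. Tensor at `x`: `A x a l r d u = ∑_q [q allowed] W x a q`, where `q` is allowed if
`l = c_(x - e₁) (lf x q)` (and `lf x q ∈ Sh (x - e₁)`), `r = c_x (rt x q)`, `d = c'_(x - e₂) (dn x q)` (and membership),
`u = c'_x (up x q)`. In `contract A σ` expand the product of the sums over `q` (`Finset.prod_univ_sum` /
`Fintype.sum_prod_piFinset`): a sum over families `(q_x)` and labels `h`, `v`. For a given family the labels must be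
`h x = c_x (rt x q_x)`, `v x = c'_x (up x q_x)`, and the conditions on the left and lower indices become
`rt x q_x = lf (x + e₁) q_(x + e₁)`, `up x q_x = dn (x + e₂) q_(x + e₂)` by injectivity. -/
def LocS : Prop := ∀ (L : ℕ) [NeZero L] (Q K : Type) [Fintype Q] [DecidableEq Q] [DecidableEq K]
  (D : ℕ) (W : Site L → Fin 2 → Q → ℂ) (lf rt dn up : Site L → Q → K) (Sh Sv : Site L → Finset K),
  (∀ x, (Sh x).card ≤ D) → (∀ x, (Sv x).card ≤ D) → (∀ x q, rt x q ∈ Sh x) →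
  (∀ x q, up x q ∈ Sv x) →
  IsPEPS D (fun σ : Site L → Fin 2 => ∑ Qf ∈ univ.filter (fun Qf : Site L → Q =>
    (∀ x : Site L, rt x (Qf x) = lf (x.1 + 1, x.2) (Qf (x.1 + 1, x.2))) ∧
      ∀ x : Site L, up x (Qf x) = dn (x.1, x.2 + 1) (Qf (x.1, x.2 + 1))), ∏ x, W x (σ x) (Qf x))

/-- RepS. The truncated sum is a PEPS. PROOF (from LocS). A typed set is a `Q : Finset (Pol × Bool)`,
`Pol = {X // X.Nonempty}`; it is functional if every polymer occurs with at most one type. Expanding the products: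
`Zc = ∑_Q ∏_((X,c) ∈ Q) wt (X,c) σ`, over the functional `Q` with `∑_(p ∈ Q, v ∈ h p.1) |h p.1| ≤ s` for all `v`,
`wt (X,false) = α X`, `wt (X,true) = β X ch X σ` (`Finset.prod_add`-like: a pair (P, the subset of type `true`)).
Choose `root X ∈ h X` (`X ⊆ h X` and `X` is not empty). Local states at `v`: `Q_v` functional in `typ h s v` (put
them in the type `Q = Finset (Pol × Bool)` and let `W v a Q_v = 0` unless `Q_v` is functional and in `typ h s v`;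
then let `rt`, `up` be computed from `Q_v` if it is in `typ h s v` and from `∅` otherwise). Weight
`W v a Q_v = ∏_((X,c) ∈ Q_v) (if v = root X then (if c then β X else α X) else 1) (if c ∧ v ∈ X then sg a else 1)`.
Labels: `rt x Q = Q.filter (fun p => (x.1+1,x.2) ∈ h p.1)`, `lf (x+e₁) Q' = Q'.filter (fun p => x ∈ h p.1)`, i.e.
`lf x Q = Q.filter (fun p => (x.1-1,x.2) ∈ h p.1)`, the same for `up`, `dn`; `Sh x = Sv x = typ h s x`. A family
`(Q_v)`, `Q_v ∈ typ h s v`, which satisfies the edge conditions comes from exactly one `Q`, `Q_v = {p ∈ Q : v ∈ h p.1}`,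
`Q = ⋃ Q_v`: if `p ∈ Q_v` and `T = {v' ∈ h p.1 : p ∈ Q_v'}` were not all of `h p.1` then by `Conn` there would be
neighbours `v' ∈ T`, `v'' ∈ h p.1`, `v'' ∉ T`; the edge condition between them gives `p ∈ Q_v''`. Conversely the
family of a `Q` satisfies the edge conditions. Products: `∏_v ∏_(p ∈ Q_v) .. = ∏_(p ∈ Q) ∏_(v ∈ h p.1) ..` and
`∏_(v ∈ h X) (..) = α X` or `β X ∏_(v ∈ X) sg (σ v) = β X ch X σ`. -/
def RepS : Prop := ∀ (L : ℕ) [NeZero L]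
  (h : {X : Finset (Site L) // X.Nonempty} → Finset (Site L))
  (α β : {X : Finset (Site L) // X.Nonempty} → ℂ) (s D : ℕ), (∀ X, X.1 ⊆ h X) →
  (∀ X, Conn (h X)) → (∀ v, (typ h s v).card ≤ D) →
  IsPEPS D (fun σ => Zc h (fun X => α X + β X * ch X.1 σ) (fun _ => s))

/-- CntS. PROOF. With `y = 1/(8a)`: `#typ ≤ ∑_Q y^(∑ |h| - s) ≤ y^(-s) ∏_((X,c) : v ∈ h X) (1 + y^|h X|) ≤
y^(-s) exp (∑_((X,c) : v ∈ h X) y^|h X|)` (`Finset.prod_one_add`/`Finset.prod_add`, `Real.add_one_le_exp`), and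
`∑_((X,c) : v ∈ h X) y^|h X| = 2 ∑_k ∑_(S ∋ v, |S| = k) ∑_(X : h X = S) y^k ≤ 2 ∑_(k ≥ 1) a^k 2^k y^k =
2 ∑_(k≥1) 4^(-k) = 2/3` (`X ⊆ S`, so at most `2^k` of them; `k ≥ 1` as `v ∈ S`; `k ≤ |V|`: a finite sum). `exp (2/3) ≤ 2`. -/
def CntS : Prop := ∀ (V : Type) [Fintype V] [DecidableEq V]
  (h : {X : Finset V // X.Nonempty} → Finset V) (a s : ℕ) (v : V), 1 ≤ a → (∀ X, X.1 ⊆ h X) →
  (∀ (v : V) (k : ℕ), ((univ.image h).filter fun S => v ∈ S ∧ S.card = k).card ≤ a ^ k) →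
  ((typ h s v).card : ℝ) ≤ 2 * (8 * a : ℝ) ^ s

/-- AniS. At most `16^k` connected sets of size `k` contain `v`. PROOF. Every connected `S ∋ v` of size `k` is
the set of the points of a closed walk from `v` of `2 (k - 1)` steps in the four directions: show by
induction on `j ≤ k` that there are `T ⊆ S`, `v ∈ T`, `|T| = j` and a list of `2 (j - 1)` directions whose
partial sums from `v` are exactly the points of `T` (if `T ≠ S` take by `Conn` an edge from `u ∈ T` to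
`u' ∈ S`, `u' ∉ T`; cut the list at a visit of `u` and insert the step to `u'` and the step back). So `S` is
determined by a list in `(Fin 4)^(2 (k-1))`: at most `4^(2(k-1)) ≤ 16^k`. For `k = 0` there is no such set. There
may be a lemma of this kind in the pool (grep for lattice animals, closed walks, contours). -/
def AniS : Prop := ∀ (L : ℕ) [NeZero L] (𝒮 : Finset (Finset (Site L))) (v : Site L) (k : ℕ),
  (∀ S ∈ 𝒮, Conn S ∧ v ∈ S ∧ S.card = k) → 𝒮.card ≤ 16 ^ k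

/-- HullS. PROOF (from AniS). `h X` = a connected set of minimal size which contains `X` (the whole torus is
connected: walk along the rows and columns), `h ∅ = ∅`. `IsSize`: `mono`: `h Y` is connected and contains `X`
(for `X = ∅` trivial). `union`: `h X ∪ h Y` is connected if `X ∩ Y` is not empty (let `T` be a proper nonempty
part; if `T` misses a point of `h X` and meets `h X` use `h X`, else `T ⊇ h X` or `T ∩ h X = ∅`, and the same for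
`Y`; a common point of `h X` and `h Y` excludes the mixed cases). The box is connected (a proper nonempty part
`T`: `bx n u` is the image of `Fin n × Fin n`; moving one step in the grid is a step of the torus) and has at
most `n²` points. Counting: AniS. -/
def HullS : Prop := ∀ (L : ℕ) [NeZero L], ∃ h : Finset (Site L) → Finset (Site L), h ∅ = ∅ ∧
  (∀ X, X ⊆ h X) ∧ (∀ X, Conn (h X)) ∧ IsSize (fun X => (h X).card) ∧
  (∀ (v : Site L) (k : ℕ), ((univ.image h).filter fun S => v ∈ S ∧ S.card = k).card ≤ 16 ^ k) ∧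
  ∀ (n : ℕ) (u : Site L), (h (bx n u)).card ≤ n ^ 2

/-- WtS. From the norm of `g` to the hypothesis of CapS. PROOF. `‖exp z - 1‖ ≤ 2 ‖z‖` for `‖z‖ ≤ 1`,
`‖ch X σ‖ = 1`, `‖g X‖ ≤ nb r t x g ≤ 1/4` for `x ∈ X`. For `S = h X`, `|S| = k`, `v ∈ S`:
`∑_(X : h X = S) ‖g X‖ ≤ ∑_(x ∈ S) ∑_(X ∋ x, h X = S) ‖g X‖ ≤ k r^(-k) / 4`. Sum over the at most `a^k` sets `S`:
`∑_(X : v ∈ h X) 2 ‖g X‖ (2q)^|h X| ≤ 2 ∑_k a^k (2q)^k k r^(-k) / 4 ≤ (1/2) ∑_k k 4^(-k) ≤ 1/4` since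
`2 a q / r ≤ 1/4` (`∑_(k≥1) k 4^(-k) = 4/9`; a finite sum, `k ≤ |V|`). -/
def WtS : Prop := ∀ (V : Type) [Fintype V] [DecidableEq V] (h : Finset V → Finset V) (a : ℕ)
  (r q : ℝ) (g : Finset V → ℂ), 1 ≤ a → 1 ≤ q → 8 * a * q ≤ r → (∀ X, X ⊆ h X) →
  (∀ (v : V) (k : ℕ), ((univ.image h).filter fun S => v ∈ S ∧ S.card = k).card ≤ a ^ k) →
  (∀ x, nb r (fun X => (h X).card) x g ≤ 1 / 4) → ∀ (σ : V → Fin 2) (v : V),
    ∑ X ∈ univ.filter (fun X : {X : Finset V // X.Nonempty} => v ∈ h X.1),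
      ‖Complex.exp (g X.1 * ch X.1 σ) - 1‖ * (2 * q) ^ (h X.1).card ≤ 1 / 4

/-- the sets `A_j`, `j = (u, a)` -/
def Aj (n : ℕ) {L : ℕ} (j : Site L × Finset (Fin n × Fin n)) : Finset (Site L) := j.2.image (sh j.1)

/-- the functions `w_j`, `j = (u, a)`: the entries of `h + X_(0,0)` at the spins in the box at `u` and their
flips in `a` -/
noncomputable def wj {n : ℕ} (h : BoxOp 2 n) {L : ℕ} (j : Site L × Finset (Fin n × Fin n))
    (σ : Site L → Fin 2) : ℂ :=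
  h (fun x => σ (sh j.1 x)) (fl j.2 fun x => σ (sh j.1 x)) -
    field n (fun x => σ (sh j.1 x)) (fl j.2 fun x => σ (sh j.1 x))

/-- MatS. PROOF. For `n ≤ L` the map `sh u` is injective. `(term h u).mulVec F σ = ∑_τ [σ = τ off the box]
h (σ ∘ sh u) (τ ∘ sh u) F τ`; the `τ` equal to `σ` off the box are the `fl (a.image (sh u)) σ`, `a ⊆ Fin n × Fin n`,
with `τ ∘ sh u = fl a (σ ∘ sh u)`. For `h = field n` only `a = {(0,0)}` contributes, with `-1` (`sh u (0,0) = u`). This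
gives the first part. The second: `‖w_j σ‖ ≤ δ`, so the coefficients are at most `δ` (WalshS (6)), and `w_j` depends
on the spins of `bx n u` only (WalshS (7)); `v ∈ bx n u` for at most `n²` sites `u` (`u = v - x`). -/
def MatS : Prop := ∀ (n L : ℕ) [NeZero L] (h : BoxOp 2 n) (δ : ℝ), 1 ≤ n → n ≤ L →
  (∀ p q, ‖h p q - field n p q‖ ≤ δ) →
  (∀ F σ, (ham h L).mulVec F σ = Hf (Aj n) (wj h) F σ) ∧
  ∀ t : Finset (Site L) → ℕ, (∀ u, t (bx n u) ≤ n ^ 2) →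
    IsPert (n ^ 2) (n ^ 2 * 2 ^ n ^ 2) t (Aj n) (fun j => bx n j.1) (wj h (L := L)) δ

/-- ArithS. PROOF. `q = exp (2 log 128 / κ)` (or larger, so that `q ≥ 1` and `q > 1`). `s = ⌈log (16 L²/ε) / log q⌉`.
Then `2 L² / q^s ≤ ε/8` and `(1 + 2/q^s)^(L²) - 1 ≤ exp (2 L²/q^s) - 1 ≤ ε/4` (`exp x - 1 ≤ 2 x` for `0 ≤ x ≤ 1`).
`128^s ≤ 128 (16 L²/ε)^(log 128 / log q) = 128 (16 L²/ε)^(κ/2) ≤ C (L/ε)^κ`, as `L²/ε ≤ (L/ε)²`. -/
def ArithS : Prop := ∀ κ : ℝ, 0 < κ → ∃ q C : ℝ, 1 ≤ q ∧ 0 < C ∧ ∀ (L : ℕ) (ε : ℝ), 1 ≤ L → 0 < ε →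
  ε ≤ 1 → ∃ s : ℕ, (1 + 2 / q ^ s) ^ (L ^ 2) - 1 ≤ ε / 4 ∧
    2 * (128 : ℝ) ^ s + 1 ≤ C * ((L : ℝ) / ε) ^ κ

end Pool.Agent.Q234.KT
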