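import Pool.Agent.Q234.KT.Fin
import Pool.Agent.Q275.KT.WA
import Pool.Agent.Q192.KT.AL
import Pool.Agent.Q192.KT.EX
import Pool.Agent.Q192.KT.UP
import Pool.Agent.Q277.KT.JP
import Pool.Agent.Q277.KT.CT
import Pool.Agent.Q275.KT.FX
import Pool.Agent.Q73.KT.EG
import Pool.Agent.Q73.KT.GA
import Pool.Agent.Q265.KT.CA
import Pool.Agent.Q265.KT.RP
import Pool.Agent.Q153.KT.LO
import Pool.Agent.Q63.KT.CN
import Pool.Agent.Q63.KT.AN
import Pool.Agent.Q64.KT.HU
import Pool.Agent.Q182.KT.WT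
import Pool.Agent.Q123.KT.Mat
import Pool.Agent.Q235.KT.AR

/-!
# Project KT: the theorem without hypotheses
-/

set_option autoImplicit false

namespace Pool.Agent.Q234.KT

theorem walsh : WalshS := Pool.Agent.Q275.KT.WA.main

theorem alg : AlgS := Pool.Agent.Q192.KT.AL.main walsh

theorem expS : ExpS := Pool.Agent.Q192.KT.EX.main alg

theorem upart : UPart := Pool.Agent.Q192.KT.UP.main walsh expS

theorem contr : ContrS :=
  Pool.Agent.Q277.KT.CT.main upart (Pool.Agent.Q277.KT.JP.main walsh alg expS)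

theorem hull : HullS := Pool.Agent.Q64.KT.HU.main Pool.Agent.Q63.KT.AN.main

theorem mat : MatS := Pool.Agent.Q123.KT.main walsh

theorem final : FinalS :=
  Fin.main contr Pool.Agent.Q275.KT.FX.main (Pool.Agent.Q73.KT.EG.main walsh)
    (Pool.Agent.Q73.KT.GA.main walsh) hull mat Pool.Agent.Q265.KT.CA.main
    (Pool.Agent.Q265.KT.RP.main Pool.Agent.Q153.KT.LO.main) Pool.Agent.Q63.KT.CN.main
    Pool.Agent.Q182.KT.WT.main Pool.Agent.Q235.KT.AR.main

end Pool.Agent.Q234.KT
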