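import Pool.Agent.TH235.PP.Spec

/-!
# Project KT (Kirkwood-Thomas expansion): definitions

`V` is a finite set of sites, configurations are `σ : V → Fin 2`, `ch X σ = ∏_(v ∈ X) sg (σ v)` are the
characters, `co F X` are the coefficients of a function, `F = ∑_X co F X ch X`.
-/

set_option autoImplicit false

open scoped BigOperators
open Finset

namespace Pool.Agent.Q234.KT

section

variable {V : Type} [Fintype V] [DecidableEq V]

/-- the sign of a spin -/
def sg (a : Fin 2) : ℂ := if a = 0 then 1 else -1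

/-- the character of the set `X` -/
def ch (X : Finset V) (σ : V → Fin 2) : ℂ := ∏ v ∈ X, sg (σ v)

/-- the coefficient of `F` at `X` -/
noncomputable def co (F : (V → Fin 2) → ℂ) (X : Finset V) : ℂ :=
  ((2 : ℂ) ^ Fintype.card V)⁻¹ * ∑ σ, F σ * ch X σ

/-- flip the spins in `A` -/
def fl (A : Finset V) (σ : V → Fin 2) : V → Fin 2 := fun v => if v ∈ A then σ v + 1 else σ v

/-- the size of the hull of a set: an abstract function with the properties which are used -/
structure IsSize (t : Finset V → ℕ) : Prop where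
  card : ∀ X, X.card ≤ t X
  mono : ∀ X Y, X ⊆ Y → t X ≤ t Y
  union : ∀ X Y, (X ∩ Y).Nonempty → t (X ∪ Y) ≤ t X + t Y

/-- the norm of `F` rooted at `S` -/
noncomputable def nm (r : ℝ) (t : Finset V → ℕ) (S : Finset V) (F : (V → Fin 2) → ℂ) : ℝ :=
  ∑ X : Finset V, ‖co F X‖ * r ^ t (S ∪ X)

/-- the part of the norm of the sets which contain `x` -/
noncomputable def nx (r : ℝ) (t : Finset V → ℕ) (S : Finset V) (x : V) (F : (V → Fin 2) → ℂ) : ℝ :=
  ∑ X ∈ univ.filter (fun X : Finset V => x ∈ X), ‖co F X‖ * r ^ t (S ∪ X)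

/-- the norm of a family of coefficients at the site `x` -/
noncomputable def nb (r : ℝ) (t : Finset V → ℕ) (x : V) (g : Finset V → ℂ) : ℝ :=
  ∑ X ∈ univ.filter (fun X : Finset V => x ∈ X), (X.card : ℝ) * ‖g X‖ * r ^ t X

/-- `Gp g A` is the part of `∑_X g X ch X` which changes its sign if the spins in `A` are flipped -/
noncomputable def Gp (g : Finset V → ℂ) (A : Finset V) (σ : V → Fin 2) : ℂ :=
  ∑ X ∈ univ.filter (fun X : Finset V => Odd (X ∩ A).card), g X * ch X σ

/-- the function `exp (∑_X g X ch X)` -/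
noncomputable def Psi (g : Finset V → ℂ) (σ : V → Fin 2) : ℂ :=
  Complex.exp (∑ X : Finset V, g X * ch X σ)

variable {J : Type} [Fintype J]

/-- a finite range perturbation `∑_j w_j(σ) (flip of A_j)`, `w_j` depends on the spins in `B_j ⊇ A_j` -/
structure IsPert (b m : ℕ) (t : Finset V → ℕ) (A B : J → Finset V) (w : J → (V → Fin 2) → ℂ)
    (ω : ℝ) : Prop where
  sub : ∀ j, A j ⊆ B j
  ne : ∀ j, (B j).Nonempty
  size : ∀ j, t (B j) ≤ b
  mult : ∀ v, (univ.filter fun j => v ∈ B j).card ≤ m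
  bd : ∀ j Y, ‖co (w j) Y‖ ≤ ω
  supp : ∀ j Y, ¬ Y ⊆ B j → co (w j) Y = 0

/-- the Hamiltonian `- ∑_u X_u + ∑_j w_j (flip of A_j)` -/
noncomputable def Hf (A : J → Finset V) (w : J → (V → Fin 2) → ℂ) (F : (V → Fin 2) → ℂ)
    (σ : V → Fin 2) : ℂ :=
  -∑ u, F (fl {u} σ) + ∑ j, w j σ * F (fl (A j) σ)

/-- the nonlinear part of the eigenvalue equation -/
noncomputable def Ph (A : J → Finset V) (w : J → (V → Fin 2) → ℂ) (g : Finset V → ℂ)
    (σ : V → Fin 2) : ℂ :=
  ∑ u, (Complex.exp (-2 * Gp g {u} σ) - 1 + 2 * Gp g {u} σ) -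
    ∑ j, w j σ * Complex.exp (-2 * Gp g (A j) σ)

/-- the map whose fixed points are the solutions -/
noncomputable def Tm (A : J → Finset V) (w : J → (V → Fin 2) → ℂ) (g : Finset V → ℂ)
    (X : Finset V) : ℂ :=
  if X = ∅ then 0 else (2 * (X.card : ℂ))⁻¹ * co (Ph A w g) X

/-- the energy of the solution -/
noncomputable def En (A : J → Finset V) (w : J → (V → Fin 2) → ℂ) (g : Finset V → ℂ) : ℂ :=
  -(Fintype.card V : ℂ) - co (Ph A w g) ∅

end

section

variable {V : Type} [Fintype V] [DecidableEq V] {ι : Type} [Fintype ι] [DecidableEq ι]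

/-- the load of the site `v`: the sum of the sizes of the polymers in `P` through `v` -/
def load (h : ι → Finset V) (P : Finset ι) (v : V) : ℕ :=
  ∑ i ∈ P.filter (fun i => v ∈ h i), (h i).card

/-- the sum over the sets of polymers with load at most `c v` at every site `v` -/
noncomputable def Zc (h : ι → Finset V) (b : ι → ℂ) (c : V → ℕ) : ℂ :=
  ∑ P ∈ univ.filter (fun P : Finset ι => ∀ v, load h P v ≤ c v), ∏ i ∈ P, b i

end

section

open Pool.Agent.TH235.PP

variable {L : ℕ}

/-- neighbours on the torus -/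
def adj (u v : Site L) : Prop :=
  v = (u.1 + 1, u.2) ∨ v = (u.1, u.2 + 1) ∨ u = (v.1 + 1, v.2) ∨ u = (v.1, v.2 + 1)

/-- `S` is connected: no proper nonempty part without an edge to the rest -/
def Conn (S : Finset (Site L)) : Prop :=
  ∀ T ⊆ S, T.Nonempty → T ≠ S → ∃ u ∈ T, ∃ v ∈ S, v ∉ T ∧ adj u v

/-- the box at `u` -/
def bx (n : ℕ) (u : Site L) : Finset (Site L) := univ.image (sh u : Fin n × Fin n → Site L)

/-- the interaction `- X_(0,0)` on the `n × n` box: the entry `-1` for pairs of configurations which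
differ exactly at `(0,0)` -/
noncomputable def field (n : ℕ) : BoxOp 2 n := fun p q =>
  if ∀ x : Fin n × Fin n, q x = if (x.1 : ℕ) = 0 ∧ (x.2 : ℕ) = 0 then p x + 1 else p x then -1 else 0

end

end Pool.Agent.Q234.KT
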